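import Pool.Agent.helper55.NK.Spec
import Pool.Agent.helper55.NK.Base

set_option autoImplicit false

/-!
# Row FIN of project NK (MP_7e34bc_co)
-/

namespace Pool.Agent.helper69.NK

open Pool.Agent.NK Finset

/-- FIN -/
theorem FIN (hPER : PER_stmt) (hCHA : CHA_stmt) : FIN_stmt := by
  classical
  intro n k hk hkn
  have hkn' : k ≤ n := by omega
  constructor
  · -- attained
    obtain ⟨S, hS, hunit, hcard⟩ := (Pool.Agent.NK.Base.uniform_result n k hk hkn').1
    refine ⟨S, fun v hv => ⟨(hS v hv).1, ?_, (hS v hv).2.le⟩, hunit, hcard⟩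
    rintro rfl
    have h1 := (hS 0 hv).2
    have h2 : (univ.filter (fun i : Fin n => (0 : Fin n → ℝ) i = 1)) = ∅ := by
      apply Finset.filter_eq_empty_iff.2
      intro i _ h
      simp at h
    rw [h2, Finset.card_empty] at h1
    omega
  · -- upper bound
    rintro m ⟨S, hS, hunit, rfl⟩
    obtain ⟨x, hx, hxS⟩ := Pool.Agent.NK.Base.exists_weights S hunit
    let F : Finset (Finset (Fin n)) := S.image (fun v => univ.filter (fun i => v i = 1))
    have hFS : F.card = S.card := by
      apply Finset.card_image_of_injOn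
      intro v hv w hw hvw
      have hvw' : univ.filter (fun i => v i = 1) = univ.filter (fun i => w i = 1) := hvw
      ext i
      have h1 : v i = 1 ↔ w i = 1 := by
        have : i ∈ univ.filter (fun i => v i = 1) ↔ i ∈ univ.filter (fun i => w i = 1) := by
          rw [hvw']
        simpa using this
      rcases (hS v hv).1 i with hv0 | hv1
      · rcases (hS w hw).1 i with hw0 | hw1
        · rw [hv0, hw0]
        · rw [hw1]; exact h1.2 hw1
      · rw [hv1]; exact (h1.1 hv1).symm
    have hFk : ∀ s ∈ F, s.Nonempty ∧ s.card ≤ k := by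
      intro s hs
      obtain ⟨v, hv, rfl⟩ := Finset.mem_image.1 hs
      refine ⟨?_, (hS v hv).2.2⟩
      obtain ⟨i, hi⟩ := Function.ne_iff.1 (hS v hv).2.1
      refine ⟨i, Finset.mem_filter.2 ⟨Finset.mem_univ _, ?_⟩⟩
      rcases (hS v hv).1 i with h | h
      · exact absurd h hi
      · exact h
    have hF0 : ∀ s ∈ F, ∑ i ∈ s, x i = 0 := by
      intro s hs
      obtain ⟨v, hv, rfl⟩ := Finset.mem_image.1 hs
      have h1 := hxS v hv
      rw [← Finset.sum_filter_add_sum_filter_not univ (fun i => v i = 1)] at h1
      have z : ∑ j ∈ univ.filter (fun j => ¬ v j = 1), v j * x j = 0 := by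
        apply Finset.sum_eq_zero
        intro j hj
        have hj' := (Finset.mem_filter.1 hj).2
        rcases (hS v hv).1 j with h | h
        · rw [h, zero_mul]
        · exact absurd h hj'
      rw [z, add_zero] at h1
      rw [← h1]
      apply Finset.sum_congr rfl
      intro j hj
      rw [(Finset.mem_filter.1 hj).2, one_mul]
    rw [← hFS]
    by_cases hk1 : k = 1
    · rw [if_pos hk1, Nat.le_zero, Finset.card_eq_zero]
      by_contra hne
      obtain ⟨s, hs⟩ := Finset.nonempty_iff_ne_empty.2 hne
      obtain ⟨h0, h1⟩ := hFk s hs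
      rw [hk1] at h1
      have h3 : s.card = 1 := le_antisymm h1 (Finset.card_pos.2 h0)
      obtain ⟨i, rfl⟩ := Finset.card_eq_one.1 h3
      have h2 := hF0 _ hs
      rw [Finset.sum_singleton] at h2
      exact hx i h2
    · rw [if_neg hk1]
      refine hPER n k (MV n k) x hx F hFk hF0 ?_
      intro a b hab C hC hch
      have h := hCHA a b k C (by omega) (by omega) hC hch
      rwa [hab] at h

end Pool.Agent.helper69.NK
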